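import Pool.Agent.MP_3ce0a0_al.H79.Y3B

/-
The projection vanishes on the natural module plus a trivial one and on its dual.
-/

namespace Pool.Agent.MP_3ce0a0_al.H79.Y

open Equiv Module Pool.Agent.MP_3ce0a0_al.H79.X

namespace H11

variable {H : Type} [AddCommGroup H] [Module ℂ H]

lemma TT_apply (N : NS (Fin 3) (GH H)) (x : H) :
    TT N x = (x + vv N 0 2 1 x + vv N 1 2 0 (x + vv N 0 2 1 x)) -
      tp N.toWS 0 1 (x + vv N 0 2 1 x + vv N 1 2 0 (x + vv N 0 2 1 x)) := rfl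

lemma vv_fix (N : NS (Fin 3) (GH H)) {a b c : Fin 3} (d : D3 a b c) {h : H}
    (h1 : ∀ a b, N.ε a (N.ε b h) = h) (h2 : ∀ a b, a ≠ b → tp N.toWS a b h = h)
    (h3 : ∀ a b, a ≠ b → N.ρ a b h = h) : vv N a b c h = h := by
  have h4 := h2 a b d.1
  rw [tp, DD_eq _ d.perm.2.2.2.2] at h4
  simp only [gmul, h1] at h4
  simp only [vv, gmul, h3 b c d.2.2.symm, h3 a c d.2.1.symm, h4]

lemma TT_fix (N : NS (Fin 3) (GH H)) {h : H}
    (h1 : ∀ a b, N.ε a (N.ε b h) = h) (h2 : ∀ a b, a ≠ b → tp N.toWS a b h = h)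
    (h3 : ∀ a b, a ≠ b → N.ρ a b h = h) : TT N h = 0 := by
  have a := vv_fix N (a := 0) (b := 2) (c := 1) (by unfold D3; decide) h1 h2 h3
  have b := vv_fix N (a := 1) (b := 2) (c := 0) (by unfold D3; decide) h1 h2 h3
  have c := h2 0 1 (by decide)
  simp only [TT_apply, map_add, a, b, c, sub_self]

lemma zero_of (N : NS (Fin 3) (GH H)) {e : Fin 3 → H} (he : ∀ i, TT N (e i) = 0)
    (h : ∀ v, ∃ (c : Fin 3 → ℂ) (h : H), v = ∑ i, c i • e i + h ∧ TT N h = 0) : TT N = 0 := by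
  ext v
  obtain ⟨c, h, rfl, h0⟩ := h v
  simp [map_sum, he, h0]

end H11

open H11 in
theorem snt : SNt := by
  intro H _ _ _ N ⟨e, h1, h2, h3, h4⟩
  have en : ∀ a, N.ε a (e a) = -e a := fun a => Se_neg (h1 a) (by simp)
  have ep : ∀ a b, a ≠ b → N.ε a (e b) = e b := fun a b h => Se_pos (h1 b) (by simpa using h)
  have s1 : swap (1 : Fin 3) 2 0 = 0 := by decide
  have s2 : swap (0 : Fin 3) 2 1 = 1 := by decide
  have d1 := h4 1 0 2 (by unfold D3; decide)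
  have d2 := h4 2 0 1 (by unfold D3; decide)
  have d3 := h4 0 1 2 (by unfold D3; decide)
  have d4 := h4 2 1 0 (by unfold D3; decide)
  have d5 := h4 0 2 1 (by unfold D3; decide)
  have d6 := h4 1 2 0 (by unfold D3; decide)
  refine ⟨zero_of N (e := e) (fun i => ?_) fun v => ?_, fun N' ⟨k1, _, k3⟩ =>
    zero_of N' (e := e) (fun i => ?_) fun v => ?_⟩
  · have v0 : vv N 1 2 0 (e 0) = -e 0 := by simp [vv, d1, d2, en, h2, s1]
    have v1 : vv N 1 2 0 (e 1) = e 2 - e 0 := by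
      simp [vv, d1, d2, en, ep, h2, s1, sub_eq_add_neg]
    have v2 : vv N 1 2 0 (e 2) = e 1 - e 0 := by
      simp [vv, d1, d2, en, ep, h2, s1, sub_eq_add_neg]
    have w1 : vv N 0 2 1 (e 1) = -e 1 := by simp [vv, d3, d4, en, h2, s2]
    have w0 : vv N 0 2 1 (e 0) = e 2 - e 1 := by
      simp [vv, d3, d4, en, ep, h2, s2, sub_eq_add_neg]
    have w2 : vv N 0 2 1 (e 2) = e 0 - e 1 := by
      simp [vv, d3, d4, en, ep, h2, s2, sub_eq_add_neg]
    have : e i + vv N 0 2 1 (e i) + vv N 1 2 0 (e i + vv N 0 2 1 (e i)) = 0 := by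
      fin_cases i <;> simp [v0, v1, v2, w0, w1, w2]
      all_goals abel
    rw [TT_apply, this]; simp
  · obtain ⟨c, h, a1, a2, a3⟩ := h3 v
    exact ⟨c, h, a1, TT_fix N a2 (fun a b k => (a3 a b k).1) fun a b k => (a3 a b k).2⟩
  · have inv : ∀ (g : GH H) (x y : H), g x = y → g⁻¹ y = x := fun g x y k => by
      rw [← k, ginv']
    have r : ∀ a b c, D3 b a c → N'.ρ a b (e b) = e b - e a ∧ N'.ρ a b (e a) = e a ∧
        N'.ρ a b (e c) = e c := fun a b c d => by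
      obtain ⟨q1, q2, q3⟩ := h4 b a c d
      rw [k3 a b d.1.symm]
      exact ⟨inv _ _ _ (by simp [q1, q2]), inv _ _ _ q2, inv _ _ _ q3⟩
    have r1 := r 1 0 2 (by unfold D3; decide)
    have r2 := r 2 0 1 (by unfold D3; decide)
    have r3 := r 0 1 2 (by unfold D3; decide)
    have r4 := r 2 1 0 (by unfold D3; decide)
    have v0 : vv N' 1 2 0 (e 0) = -e 0 - e 2 - e 1 := by
      simp [vv, k1, r1, r2, en, ep, h2, s1]
    have v1 : vv N' 1 2 0 (e 1) = e 2 := by simp [vv, k1, r1, r2, ep, h2]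
    have v2 : vv N' 1 2 0 (e 2) = e 1 := by simp [vv, k1, r1, r2, ep, h2]
    have w1 : vv N' 0 2 1 (e 1) = -e 1 - e 2 - e 0 := by
      simp [vv, k1, r3, r4, en, ep, h2, s2]
    have w0 : vv N' 0 2 1 (e 0) = e 2 := by simp [vv, k1, r3, r4, ep, h2]
    have w2 : vv N' 0 2 1 (e 2) = e 0 := by simp [vv, k1, r3, r4, ep, h2]
    have : e i + vv N' 0 2 1 (e i) + vv N' 1 2 0 (e i + vv N' 0 2 1 (e i)) = 0 := by
      fin_cases i <;> simp [v0, v1, v2, w0, w1, w2]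
      all_goals abel
    rw [TT_apply, this]; simp
  · obtain ⟨c, h, a1, a2, a3⟩ := h3 v
    refine ⟨c, h, a1, TT_fix N' (by rw [k1]; exact a2) (fun a b k => by rw [k1]; exact (a3 a b k).1)
      fun a b k => ?_⟩
    rw [k3 a b k]
    conv_lhs => rw [← (a3 b a k.symm).2]
    exact ginv' _ _

end Pool.Agent.MP_3ce0a0_al.H79.Y
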